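import Pool.Agent.H10.ABY.All
import Pool.Agent.H22.VIO.DYV
import Pool.Agent.H22.VIO.FIV
import Pool.Agent.H23.VIO.KRV
import Pool.Agent.H25.VIO.TSX
import Pool.Agent.H31.ABCR.GCO
import Pool.Agent.H34.VIO.PGJ
import Pool.Agent.H36.VIO.GCH
import Pool.Agent.H40.VIO.MAV
import Pool.Agent.H45.VIO.GRL
import Pool.Agent.H51.VIO.PAT
import Pool.Agent.H52.VIO.TSL
import Pool.Agent.H62.VIO.HGT
import Pool.Agent.H82.VIO.NEF
import Pool.Agent.H85.VIO.KNV
import Pool.Agent.H91.VIO.LPF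
import Pool.Agent.H99.ABY.GPD
import Pool.Agent.H99.VIO.DIR

set_option autoImplicit false

namespace Pool.VIO

open Pool.Agent.H98.ABCR Pool.SHA Pool.ABY

theorem all_PAT : S_PAT := pat_thm gco_thm

theorem all_KNV : S_KNV := knv_thm (krv_thm grl_thm)

theorem all_TSX : S_TSX := tsx_thm tsl_thm gch_thm dir_thm all_PAT pgj_thm hgt_thm

theorem all_NEF : S_NEF := nef_thm tsl_thm gch_thm all_PAT hgt_thm

theorem all_LPF : S_LPF := lpf_thm all_TSX gpd_thm

theorem all_DYV : S_DYV := dyv_thm all_LPF all_NEF all_KNV gpd_thm all_ALL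

/-- THEOREM V -/
theorem all_MAV : S_MAV := mav_thm all_DYV ehb_thm

/-- final statement -/
theorem all_FIV : S_FIV := fiv_thm all_MAV all_ALL

end Pool.VIO
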