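import Pool.Agent.H10.ABY.Stmts

/-!
# VIO: weak abc holds for 100% of the abc triples ordered by radical

Definitions and the statements of the modules.  Proofs in words: `/team-store/VIO_PLAN_helper46.md`
and the docstrings.  Module `XXX` is a theorem `xxx_thm (h1 : S_AAA) ... : S_XXX` in
`Pool/Agent/H<k>/VIO/XXX.lean` (import this file, namespace `Pool.VIO`).
-/

set_option autoImplicit false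

namespace Pool.VIO

open Finset Pool.Agent.H98.ABCR Pool.SHA Pool.ABY

/-! ## Part A: Thue-Siegel with `g` proportional to the height -/

/-- common hypotheses: `Y1 / Y2 = (W1 / W2) ^ g * (N / D)` is `1` modulo `t ^ x t`, `W1 / W2` is `1`
modulo `t ^ m t` -/
structure Apx (R : ℝ) (g : ℕ) (T : Finset ℕ) (x m : ℕ → ℕ) (Y1 Y2 W1 W2 N D : ℕ) : Prop where
  Y10 : 0 < Y1
  Y20 : 0 < Y2
  W10 : 0 < W1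
  W20 : 0 < W2
  N0 : 0 < N
  D0 : 0 < D
  cop : N.Coprime D
  eq : Y1 * W2 ^ g * D = Y2 * W1 ^ g * N
  ne : Y1 ≠ Y2
  pr : ∀ t ∈ T, t.Prime
  tg : ∀ t ∈ T, ¬ t ∣ g
  tY : ∀ t ∈ T, ¬ t ∣ Y1 ∧ ¬ t ∣ Y2 ∧ ¬ t ∣ W1 ∧ ¬ t ∣ W2
  mx : ∀ t ∈ T, 1 ≤ m t ∧ m t ≤ x t ∧ (x t : ℝ) ≤ R * g * m t
  cW : ∀ t ∈ T, (t : ℤ) ^ m t ∣ (W1 : ℤ) - W2
  cY : ∀ t ∈ T, (t : ℤ) ^ x t ∣ (Y1 : ℤ) - Y2

/-- TSL: from `H62EHB.coreG` (H62/EHB/CoreG.lean) with `z = 1`, `a = W2`, `c = W1`, `p = N`, `q = D`, `μ = c / (8 C1)`,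
`M = ⌊μ g⌋`, `n = ⌈2 R / μ⌉ + 2`, `N' = 4 n`, `K = 3 M n`, `I = M n + 2 M`, `G = ⌈1 / μ⌉ + 1`,
`R' = 8 M n`: the cost is `O_{R, μ} (g) + 4 n (δ / R) h0 + M C1 h0 / g`.  If `N = D = 1` then
`W1 ≠ W2` and `t ^ x t ∣ W1 ^ g - W2 ^ g` gives `t ^ x t ∣ W1 - W2`. -/
def S_TSL : Prop := ∀ c C1 : ℝ, 0 < c → 1 ≤ C1 → ∃ δ : ℝ, 0 < δ ∧ ∀ R : ℝ, 1 ≤ R →
  ∃ G0 : ℝ, 1 ≤ G0 ∧ ∀ (g : ℕ) (T : Finset ℕ) (x m : ℕ → ℕ) (Y1 Y2 W1 W2 N D : ℕ) (h0 : ℝ),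
    Apx R g T x m Y1 Y2 W1 W2 N D → G0 ≤ g → G0 * g ≤ h0 →
    Real.log N ≤ δ / R * h0 → Real.log D ≤ δ / R * h0 →
    Real.log W1 ≤ C1 * h0 / g → Real.log W2 ≤ C1 * h0 / g →
    ∑ t ∈ T, (x t : ℝ) * Real.log t < c * h0

/-! ## Part B: auxiliary lemmas -/

/-- GCH: an integer `g` near `y` which is prime to most of `T`.  (Average over the integers of
`[(1 - θ) y, y]`: the lost weight is at most `∑ w t (1 / t + 1 / n) ≤ 3 / 5 ∑ w t`.) -/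
def S_GCH : Prop := ∀ (T : Finset ℕ) (w : ℕ → ℝ) (y θ : ℝ), (∀ t ∈ T, t.Prime ∧ 0 ≤ w t) →
  0 < θ → θ ≤ 1 → 20 ≤ θ * y →
  ∃ g : ℕ, (1 - θ) * y ≤ g ∧ (g : ℝ) ≤ y ∧
    ∑ t ∈ T, w t ≤ 3 * ∑ t ∈ T.filter (fun t => ¬ t ∣ g), w t

/-- DIR: simultaneous approximation (Dirichlet) -/
def S_DIR : Prop := ∀ (k : ℕ) (ε : ℝ), 0 < ε → ε ≤ 1 / 2 → ∃ Q : ℕ, 1 ≤ Q ∧
  ∀ (S : Finset ℕ) (ρ : ℕ → ℝ), S.card ≤ k → (∀ p ∈ S, 0 ≤ ρ p) →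
    ∃ q : ℕ, 1 ≤ q ∧ q ≤ Q ∧ ∀ p ∈ S, ∃ n : ℕ, |(q : ℝ) * ρ p - n| ≤ ε

/-- PAT: classes of triples by the exponents of the primes of `K`.  (Cells of
`⌊e log q / Δ⌋`, `Δ = δ h0 / (|K| + 1)`, for the three coordinates: vectors of natural numbers of
sum `≤ 6 (|K| + 1) / δ`, `S_GCO`.) -/
def S_PAT : Prop := ∀ δ : ℝ, 0 < δ → ∃ C : ℝ, 1 ≤ C ∧ ∀ (K : Finset ℕ) (h0 : ℝ),
  (∀ q ∈ K, q.Prime) → 0 < h0 → ∃ (n : ℕ) (cl : ℕ × ℕ → ℕ), (n : ℝ) ≤ C ^ (K.card + 1) ∧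
    (∀ v, IsTri v → hh v ≤ 2 * h0 → cl v < n) ∧
    ∀ v v', IsTri v → IsTri v' → hh v ≤ 2 * h0 → hh v' ≤ 2 * h0 → cl v = cl v' → ∀ s, ∀ q ∈ K,
      |((coord v s).factorization q : ℝ) - (coord v' s).factorization q| * Real.log q *
        (K.card + 1) ≤ δ * h0

/-- PGJ: pigeonhole over the `J`-subsets of `F` -/
def S_PGJ : Prop := ∀ (F : Finset (ℕ × ℕ)) (J M : ℕ) (u u' : ℕ × ℕ → ℕ), 0 < M →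
  (∀ v ∈ F, (u v).Coprime M ∧ (u' v).Coprime M) → M < F.card.choose J →
  ∃ A B : Finset (ℕ × ℕ), A ⊆ F ∧ B ⊆ F ∧ Disjoint A B ∧ A.card = B.card ∧ A.Nonempty ∧
    A.card ≤ J ∧
    (M : ℤ) ∣ (∏ v ∈ A, (u v : ℤ)) * ∏ v ∈ B, (u' v : ℤ) -
      (∏ v ∈ A, (u' v : ℤ)) * ∏ v ∈ B, (u v : ℤ)

/-- the `g`-th root of the coordinate `s` of `v`: `μ v p` is about (exponent of `p`) `/ g` -/
def rt (μ : ℕ × ℕ → ℕ → ℕ) (s : Fin 3) (v : ℕ × ℕ) : ℕ :=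
  ∏ p ∈ (coord v s).primeFactors, p ^ μ v p

/-- rest of the exponents outside `K`: `∑ |e_p - g μ_p| log p` -/
noncomputable def rst (g : ℕ) (K : Finset ℕ) (μ : ℕ × ℕ → ℕ → ℕ) (s : Fin 3) (v : ℕ × ℕ) : ℝ :=
  ∑ p ∈ (coord v s).primeFactors \ K,
    |((coord v s).factorization p : ℝ) - g * μ v p| * Real.log p

/-- HGT: the quotient of the products over `A` and `B` is a `g`-th power times a number of small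
height.  (Exponent of `p` in `Y1 W2 ^ g / (Y2 W1 ^ g)`: for `p ∈ K` the difference of sums of equally
many almost equal exponents, for `p ∉ K` at most `∑ |e_p - g μ_p|`.) -/
def S_HGT : Prop := ∀ (g : ℕ) (K : Finset ℕ) (μ : ℕ × ℕ → ℕ → ℕ) (j k : Fin 3)
  (A B : Finset (ℕ × ℕ)) (a b : ℝ), 0 ≤ a → 0 ≤ b → j ≠ k → (∀ q ∈ K, q.Prime) → Disjoint A B →
  A.card = B.card → (∀ v ∈ A ∪ B, IsTri v ∧ (∀ q ∈ K, μ v q = 0) ∧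
    rst g K μ j v ≤ a ∧ rst g K μ k v ≤ a) →
  (∀ v ∈ A ∪ B, ∀ v' ∈ A ∪ B, ∀ s, ∀ q ∈ K,
    |((coord v s).factorization q : ℝ) - (coord v' s).factorization q| * Real.log q *
      (K.card + 1) ≤ b) →
  ∃ N D : ℕ, 0 < N ∧ 0 < D ∧ N.Coprime D ∧
    (∏ v ∈ A, coord v k) * (∏ v ∈ B, coord v j) *
        ((∏ v ∈ A, rt μ j v) * ∏ v ∈ B, rt μ k v) ^ g * D =
      (∏ v ∈ A, coord v j) * (∏ v ∈ B, coord v k) *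
        ((∏ v ∈ A, rt μ k v) * ∏ v ∈ B, rt μ j v) ^ g * N ∧
    Real.log N ≤ A.card * (4 * a + 2 * b) ∧ Real.log D ≤ A.card * (4 * a + 2 * b)

/-! ## Part C: families of triples with known primes -/

/-- logarithm of the part of the coordinates other than `i` made of unknown primes `≤ X ^ η` -/
noncomputable def lig (X η : ℝ) (K : Finset ℕ) (i : Fin 3) (v : ℕ × ℕ) : ℝ :=
  ∑ s ∈ univ.erase i, ∑ q ∈ (coord v s).primeFactors.filter (fun q => q ∉ K ∧ (q : ℝ) ≤ X ^ η),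
    ((coord v s).factorization q : ℝ) * Real.log q

/-- a triple of height about `h0` with known primes `K`, of weight `≥ c` in the coordinate `i`; the
unknown primes `≤ X ^ η` of the two other coordinates have weight `≤ lam` -/
structure Fam (X h0 c η lam : ℝ) (K : Finset ℕ) (i : Fin 3) (v : ℕ × ℕ) : Prop where
  tri : IsTri v
  rad : (RR v : ℝ) ≤ X
  lo : h0 ≤ hh v
  up : hh v ≤ 2 * h0
  sub : K ⊆ (nn v).primeFactors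
  wt : c * h0 ≤ kl K (coord v i)
  lg : lig X η K i v ≤ lam * h0

/-- every triple of `F` has a prime outside `K` in the coordinates other than `i` which divides no
other triple of `F` in these coordinates -/
def Priv (K : Finset ℕ) (i : Fin 3) (F : Finset (ℕ × ℕ)) : Prop :=
  ∀ v ∈ F, ∃ s, s ≠ i ∧ ∃ q : ℕ, q.Prime ∧ q ∉ K ∧ q ∣ coord v s ∧
    ∀ v' ∈ F, v' ≠ v → ∀ s', s' ≠ i → ¬ q ∣ coord v' s'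

/-- TSX: few triples with private primes.  See the page. -/
def S_TSX : Prop := ∀ c η ε : ℝ, 0 < c → c ≤ 1 → 0 < η → η ≤ 1 → 0 < ε → ∃ lam κ0 X0 : ℝ,
  0 < lam ∧ 1 ≤ κ0 ∧ 3 ≤ X0 ∧ ∀ (X h0 : ℝ) (K : Finset ℕ) (i : Fin 3) (F : Finset (ℕ × ℕ)),
    X0 ≤ X → κ0 * Real.log X ≤ h0 → (∀ v ∈ F, Fam X h0 c η lam K i v) → Priv K i F →
    (F.card : ℝ) ≤ X ^ ε

/-- LPF: few triples with known small primes, all heights `≥ κ0 log X`.  (Induction on the number of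
unknown large primes: maximal subfamily with disjoint sets of unknown large primes; `S_GPD` if there
are none.) -/
def S_LPF : Prop := ∀ c η ε : ℝ, 0 < c → c ≤ 1 → 0 < η → η ≤ 1 → 0 < ε → ∃ lam κ0 X0 : ℝ,
  0 < lam ∧ 1 ≤ κ0 ∧ 3 ≤ X0 ∧ ∀ (X h0 : ℝ) (K : Finset ℕ) (i : Fin 3) (F : Finset (ℕ × ℕ)),
    X0 ≤ X → κ0 * Real.log X ≤ h0 → (∀ v ∈ F, Fam X h0 c η lam K i v) → (F.card : ℝ) ≤ X ^ ε

/-- a triple whose unknown primes (in the coordinates other than `i`) have exponents near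
`3 h0 / log X` -/
structure FamN (X h0 c τ : ℝ) (K T : Finset ℕ) (i : Fin 3) (v : ℕ × ℕ) : Prop where
  tri : IsTri v
  rad : (RR v : ℝ) ≤ X
  lo : h0 ≤ hh v
  up : hh v ≤ 2 * h0
  sub : K ⊆ (nn v).primeFactors
  wt : c * h0 ≤ kl T (coord v i)
  near : ∀ s, s ≠ i → ∀ q ∈ (coord v s).primeFactors, q ∉ K →
    |((coord v s).factorization q : ℝ) * Real.log X - 3 * h0| ≤ τ * h0

/-- NEF: few triples with exponents near `3 h0 / log X`: two triples of the same class contradict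
TSL. -/
def S_NEF : Prop := ∀ c ε : ℝ, 0 < c → c ≤ 1 → 0 < ε → ∃ τ κ0 X0 : ℝ,
  0 < τ ∧ τ ≤ 1 ∧ 1 ≤ κ0 ∧ 3 ≤ X0 ∧
  ∀ (X h0 : ℝ) (K T : Finset ℕ) (i : Fin 3) (F : Finset (ℕ × ℕ)), T ⊆ K →
    X0 ≤ X → κ0 * Real.log X ≤ h0 → (∀ v ∈ F, FamN X h0 c τ K T i v) →
    (F.card : ℝ) ≤ ((∏ t ∈ T, t : ℕ) : ℝ) * X ^ ε

/-! ## Part D: choice of the known primes -/

/-- GRL: greedy choice among items of cost `≤ η` -/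
def S_GRL : Prop := ∀ (s : Finset ℕ) (c μ : ℕ → ℝ) (η θ : ℝ), 0 ≤ η → 0 ≤ θ → θ ≤ 1 →
  (∀ q ∈ s, 0 < c q ∧ c q ≤ η ∧ 0 ≤ μ q) →
  ∃ F ⊆ s, θ * ∑ q ∈ s, c q - η ≤ ∑ q ∈ F, c q ∧ ∑ q ∈ F, c q ≤ θ * ∑ q ∈ s, c q ∧
    ∑ q ∈ F, μ q ≤ θ * ∑ q ∈ s, μ q

/-- KRV: real knapsack: items `s` with cost `c`, mass `μ`, coordinate `i`; `ν` is the archimedean
mass.  See the page. -/
def S_KRV : Prop := ∀ τ : ℝ, 0 < τ → τ ≤ 1 → ∃ c0 η : ℝ, 0 < c0 ∧ c0 ≤ 1 / 10 ∧ 0 < η ∧ η ≤ 1 ∧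
  ∀ lam : ℝ, 0 < lam → ∃ δ : ℝ, 0 < δ ∧ δ ≤ 1 ∧
  ∀ (s : Finset ℕ) (c μ : ℕ → ℝ) (i : ℕ → Fin 3) (ν : ℝ) (s1 s2 : Fin 3), s1 ≠ s2 →
    (∀ q ∈ s, 0 < c q) → (∀ q ∈ s, 0 ≤ μ q) → 0 ≤ ν → ∑ q ∈ s, c q ≤ 1 →
    3 - δ ≤ ∑ q ∈ s, μ q + ν → (∀ r, ∑ q ∈ s.filter (fun q => i q = r), μ q ≤ 1) →
    1 - δ ≤ ∑ q ∈ s.filter (fun q => i q = s1), μ q →
    1 - δ ≤ ∑ q ∈ s.filter (fun q => i q = s2), μ q →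
    ∃ K ⊆ s,
      (∑ q ∈ K, c q ≤ 2 / 3 - c0 ∧ 2 + δ ≤ ∑ q ∈ K, μ q + ν) ∨
      (∑ q ∈ K, c q ≤ 2 / 3 - c0 ∧ ∃ t, δ ≤ ∑ q ∈ K.filter (fun q => i q = t), μ q ∧
        ∀ q ∈ s, q ∉ K → i q ≠ t → η < c q) ∨
      (∑ q ∈ K, c q ≤ 2 / 3 - c0 ∧ ∃ t, η / 4 ≤ ∑ q ∈ K.filter (fun q => i q = t), μ q ∧
        ∑ q ∈ s.filter (fun q => q ∉ K ∧ i q ≠ t ∧ c q ≤ η), μ q ≤ lam) ∨
      (∃ t, ∃ T ⊆ K, (∀ q ∈ T, i q = t) ∧ ∑ q ∈ K, c q + ∑ q ∈ T, c q ≤ 3 / 5 ∧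
        1 / 4 ≤ ∑ q ∈ T, μ q ∧ ∀ q ∈ s, q ∉ K → i q ≠ t → |μ q - 3 * c q| ≤ τ * c q)

/-- KNV: choice of the known primes of a triple -/
def S_KNV : Prop := ∀ τ : ℝ, 0 < τ → τ ≤ 1 → ∃ c0 η : ℝ, 0 < c0 ∧ c0 ≤ 1 / 10 ∧ 0 < η ∧ η ≤ 1 ∧
  ∀ lam : ℝ, 0 < lam → ∃ δ : ℝ, 0 < δ ∧ δ ≤ 1 ∧
  ∀ (X : ℝ) (v : ℕ × ℕ), 3 ≤ X → IsTri v → (RR v : ℝ) ≤ X → 1 / δ ≤ hh v →
    ∃ K ⊆ (nn v).primeFactors,
      (((∏ q ∈ K, q : ℕ) : ℝ) ≤ X ^ (2 / 3 - c0) ∧ (2 + δ) * hh v ≤ mass K v) ∨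
      (((∏ q ∈ K, q : ℕ) : ℝ) ≤ X ^ (2 / 3 - c0) ∧ ∃ i, δ * hh v ≤ kl K (coord v i) ∧
        lig X η K i v ≤ 0) ∨
      (((∏ q ∈ K, q : ℕ) : ℝ) ≤ X ^ (2 / 3 - c0) ∧ ∃ i, η / 4 * hh v ≤ kl K (coord v i) ∧
        lig X η K i v ≤ lam * hh v) ∨
      (∃ i, ∃ T ⊆ K, ((∏ q ∈ K, q : ℕ) : ℝ) * ((∏ q ∈ T, q : ℕ) : ℝ) ≤ X ^ (3 / 5 : ℝ) ∧
        1 / 4 * hh v ≤ kl T (coord v i) ∧
        ∀ s, s ≠ i → ∀ q ∈ (coord v s).primeFactors, q ∉ K →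
          |((coord v s).factorization q : ℝ) * Real.log X - 3 * hh v| ≤ τ * hh v)

/-! ## Part E: assembly -/

/-- DYV: triples in one range of heights.  Constants: `S_NEF (1/4) (1/60)` gives `τ`; `S_KNV (τ/4)`
gives `c0, η`; `S_LPF (η/4) η (c0/4)` gives `lam`; `S_KNV` with `lam/2` gives `δ`;
`S_LPF δ η (c0/4)`; `θ = τ / 12`; final exponent `2/3 - c0/4`; `X` bounded: `S_ALL`. -/
def S_DYV : Prop := ∃ c0 C κ0 θ : ℝ, 0 < c0 ∧ c0 ≤ 1 / 10 ∧ 1 ≤ C ∧ 1 ≤ κ0 ∧ 0 < θ ∧ θ ≤ 1 ∧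
  ∀ (X h0 : ℝ) (F : Finset (ℕ × ℕ)), 1 ≤ X → 0 < h0 → κ0 * Real.log X ≤ h0 →
    (∀ v ∈ F, IsTri v ∧ (RR v : ℝ) ≤ X ∧ h0 ≤ hh v ∧ hh v ≤ (1 + θ) * h0) →
    (F.card : ℝ) ≤ C * X ^ (2 / 3 - c0)

/-- MAV: THEOREM V -/
def S_MAV : Prop := ∃ c0 C κ : ℝ, 0 < c0 ∧ 1 ≤ C ∧ 1 ≤ κ ∧ ∀ (X : ℝ) (F : Finset (ℕ × ℕ)), 1 ≤ X →
  (∀ v ∈ F, IsTri v ∧ (RR v : ℝ) ≤ X ∧ κ * Real.log X ≤ hh v) →
  (F.card : ℝ) ≤ C * X ^ (2 / 3 - c0)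

/-- the abc triples of radical at most `X` -/
def Tri (X : ℝ) : Set (ℕ × ℕ) :=
  {t | 0 < t.1 ∧ 0 < t.2 ∧ Nat.Coprime t.1 t.2 ∧
    ((∏ p ∈ (t.1 * t.2 * (t.1 + t.2)).primeFactors, p : ℕ) : ℝ) ≤ X}

/-- the triples of radical at most `X` for which `a + b > rad (a b (a + b)) ^ κ` -/
def Exc (κ X : ℝ) : Set (ℕ × ℕ) :=
  {t | t ∈ Tri X ∧
    ((∏ p ∈ (t.1 * t.2 * (t.1 + t.2)).primeFactors, p : ℕ) : ℝ) ^ κ < ((t.1 + t.2 : ℕ) : ℝ)}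

/-- FIV: final statement: `c ≤ rad ^ κ` for all abc triples outside a set of relative density
`O (X ^ (-c0))`.  From MAV (dyadic in the radical: `Z / 2 < R ≤ Z`, `Z ≥ 2` gives `R ≥ Z ^ (1 / 2)`,
`κ = 2 κ'`), `S_ALL` (finiteness) and the lower bound of `Pool.SHA.final`. -/
def S_FIV : Prop := ∃ c0 C κ : ℝ, 0 < c0 ∧ ∀ X : ℝ, 2 ≤ X →
  (Tri X).Finite ∧ X ^ (2 / 3 : ℝ) / 32 ≤ ((Tri X).ncard : ℝ) ∧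
    ((Exc κ X).ncard : ℝ) ≤ C * X ^ (2 / 3 - c0) ∧
    ((Exc κ X).ncard : ℝ) ≤ C * X ^ (-c0) * (Tri X).ncard

end Pool.VIO
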